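import Pool.Agent.Q67.VD3.Time

/-!
Directions of the vorticity which are Hoelder continuous up to the sign.
-/

set_option autoImplicit false

open MeasureTheory Set Metric Filter
open scoped ENNReal ContDiff Topology
open H459R3.NS Pool.Agent.W268.NS Pool.Agent.Q67.VD Pool.Agent.Q67.VD2

namespace Pool.Agent.Q67.VD3

/-- the rate in the exponent of the growth of the enstrophy -/
lemma rate_leU {β ν E I C G : ℝ} (hβ0 : 0 < β) (hβ1 : β ≤ 1) (hν : 0 < ν) (hE : 0 ≤ E)
    (hI : 0 < I) (hC : 0 < C) (hG : 1 ≤ G) {R₀ R₁ A δ a b : ℝ}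
    (hR0 : R₀ = 1 / 2 * (2 * G) ^ (-(1 / β)))
    (hA : A = 3 * √(E / R₀)) (hδ : δ = min (1 / 2) (1 / 2 * ν * R₀ / (C * I)))
    (hR1 : R₁ = 1 / 2 * (δ / G) ^ (1 / β)) (ha : a = 2 + 4 * 2 ^ (1 / β) * C * I / ν)
    (hb : b = 3 * √E * (2 * 2 ^ (1 / β)) ^ (5 / 2 : ℝ)) :
    ν / R₁ ^ 2 + A / R₀ ^ 2 ≤ (4 * ν * a ^ (2 / β) + b) * G ^ (2 * (1 + β) / β ^ 2) := by
  have hG0 : 0 < G := by linarith
  set q : ℝ := 2 * (1 + β) / β ^ 2 with hq
  have hR0p : 0 < R₀ := by rw [hR0]; positivity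
  set P : ℝ := 2 * 2 ^ (1 / β) with hP
  have hP0 : 0 < P := by positivity
  have hRinv : 1 / R₀ = P * G ^ (1 / β) := by
    rw [hR0, Real.rpow_neg (by positivity), Real.mul_rpow (by norm_num) hG0.le, hP]
    field_simp
  have hδp : 0 < δ := by rw [hδ]; exact lt_min (by norm_num) (by positivity)
  have hG1 : 1 ≤ G ^ (1 / β) := Real.one_le_rpow hG (by positivity)
  have hinv : 1 / δ ≤ a * G ^ (1 / β) := by
    have h1 : 1 / δ ≤ 2 + 2 * (C * I) / ν * (1 / R₀) := by
      rw [hδ]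
      have hq0 : 0 < 2 * (C * I) / ν * (1 / R₀) := by positivity
      rcases le_total (1 / 2) (1 / 2 * ν * R₀ / (C * I)) with h | h
      · rw [min_eq_left h]
        norm_num
        have : 0 < 2 * (C * I) / ν * R₀⁻¹ := by rw [one_div] at hq0; exact hq0
        linarith
      · rw [min_eq_right h]
        have e1 : 1 / (1 / 2 * ν * R₀ / (C * I)) = 2 * (C * I) / ν * (1 / R₀) := by field_simp
        rw [e1]
        linarith
    rw [hRinv] at h1
    refine h1.trans ?_
    rw [ha, hP]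
    have e2 : (2 + 4 * 2 ^ (1 / β) * C * I / ν) * G ^ (1 / β)
        = 2 * G ^ (1 / β) + 2 * (C * I) / ν * (2 * 2 ^ (1 / β) * G ^ (1 / β)) := by ring
    rw [e2]
    linarith
  have ha0 : 0 < a := by rw [ha]; positivity
  have hR1p : 0 < R₁ := by rw [hR1]; positivity
  have t1 : ν / R₁ ^ 2 ≤ 4 * ν * a ^ (2 / β) * G ^ q := by
    have e1 : R₁ ^ 2 = 1 / 4 * (δ / G) ^ (2 / β) := by
      rw [hR1, mul_pow, ← Real.rpow_natCast ((δ / G) ^ (1 / β)) 2, ← Real.rpow_mul (by positivity)]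
      norm_num
      congr 1
      ring
    have e2 : ν / R₁ ^ 2 = 4 * ν * (G * (1 / δ)) ^ (2 / β) := by
      rw [e1]
      have e3 : (G * (1 / δ)) ^ (2 / β) = ((δ / G) ^ (2 / β))⁻¹ := by
        rw [← Real.inv_rpow (by positivity)]
        congr 1
        field_simp
      rw [e3]
      field_simp
    have e4 : 4 * ν * a ^ (2 / β) * G ^ q = 4 * ν * (a ^ (2 / β) * G ^ q) := by ring
    rw [e2, e4]
    refine mul_le_mul_of_nonneg_left ?_ (by positivity)
    have h1 : G * (1 / δ) ≤ a * G ^ (1 + 1 / β) := by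
      rw [Real.rpow_add hG0, Real.rpow_one]
      calc G * (1 / δ) ≤ G * (a * G ^ (1 / β)) := mul_le_mul_of_nonneg_left hinv hG0.le
        _ = _ := by ring
    calc (G * (1 / δ)) ^ (2 / β) ≤ (a * G ^ (1 + 1 / β)) ^ (2 / β) :=
          Real.rpow_le_rpow (by positivity) h1 (by positivity)
      _ = a ^ (2 / β) * G ^ q := by
          rw [Real.mul_rpow ha0.le (by positivity), ← Real.rpow_mul hG0.le]
          congr 2
          rw [hq]
          field_simp
          ring
  have t4 : A / R₀ ^ 2 ≤ b * G ^ q := by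
    have h1 : A / R₀ ^ 2 = 3 * √E * (1 / R₀) ^ (5 / 2 : ℝ) := by
      have e1 : √(E / R₀) = √E * (1 / R₀) ^ (1 / 2 : ℝ) := by
        rw [Real.sqrt_div hE, ← Real.sqrt_eq_rpow, Real.sqrt_div zero_le_one, Real.sqrt_one]
        ring
      have e2 : (1 / R₀) ^ (5 / 2 : ℝ) = (1 / R₀) ^ (1 / 2 : ℝ) * (1 / R₀) ^ (2 : ℕ) := by
        rw [← Real.rpow_natCast (1 / R₀) 2, ← Real.rpow_add (by positivity)]
        norm_num
      rw [hA, e1, e2]
      field_simp
    rw [h1, hRinv, Real.mul_rpow hP0.le (by positivity), ← Real.rpow_mul hG0.le, hb, mul_assoc]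
    have h2 : G ^ (1 / β * (5 / 2)) ≤ G ^ q := by
      refine Real.rpow_le_rpow_of_exponent_le hG ?_
      rw [hq, le_div_iff₀ (by positivity)]
      have : 1 / β * (5 / 2) * β ^ 2 = 5 / 2 * β := by field_simp
      rw [this]
      linarith
    rw [mul_assoc, mul_assoc]
    gcongr
  rw [add_mul]
  linarith

/-- the absolute value of the cosine -/
lemma half_le_of_cross {v : V → V} {x y : V} (hx : 0 < om v x) (hy : 0 < om v y)
    (h : len (crossProduct (dir v x) (dir v y)) ≤ 1 / 2) : 1 / 2 ≤ |dir v x ⬝ᵥ dir v y| := by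
  have h1 : len (crossProduct (dir v x) (dir v y)) ^ 2 ≤ (1 / 2) ^ 2 :=
    pow_le_pow_left₀ (len_nonneg _) h 2
  have h2 : len (dir v x) ^ 2 = 1 := by rw [len_dir hx, one_pow]
  have h3 : len (dir v y) ^ 2 = 1 := by rw [len_dir hy, one_pow]
  rw [len_sq] at h1 h2 h3
  rw [cross_apply] at h1
  simp only [Matrix.cons_val_zero, Matrix.cons_val_one, Matrix.cons_val] at h1
  refine abs_le_of_sq_le_sq' (a := 1 / 2) ?_ (abs_nonneg _) |>.2
  rw [sq_abs, dotProduct, Fin.sum_univ_three]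
  set a := dir v x
  set b := dir v y
  have e : (a 0 ^ 2 + a 1 ^ 2 + a 2 ^ 2) * (b 0 ^ 2 + b 1 ^ 2 + b 2 ^ 2)
      = (a 0 * b 0 + a 1 * b 1 + a 2 * b 2) ^ 2
        + ((a 1 * b 2 - a 2 * b 1) ^ 2 + (a 2 * b 0 - a 0 * b 2) ^ 2
          + (a 0 * b 1 - a 1 * b 0) ^ 2) := by ring
  rw [h2, h3, mul_one] at e
  nlinarith

/-- Hoelder continuous directions, without orientation. -/
theorem holderU {C : ℝ} (hC : 0 < C) (hcrit : CritU C) (hL1 : StmL1) {β ν E : ℝ} (hβ0 : 0 < β)
    (hβ1 : β ≤ 1) (hν : 0 < ν) (hE : 0 ≤ E) : ∃ Λ : ℝ, 0 < Λ ∧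
    ∀ (T : ℝ) (u : ℝ → V → V) (p : ℝ → V → ℝ) (T₀ : ℝ) (g : ℝ → ℝ),
    IsSol ν T u p → T₀ ∈ Ico 0 T → energy (u T₀) ≤ E → ∫ x in cube, om (u T₀) x ≤ E →
    (∀ t ∈ Ioo T₀ T, 0 ≤ g t) →
    (∀ t ∈ Ioo T₀ T, ∀ x y, 0 < om (u t) x → 0 < om (u t) y →
      len (crossProduct (dir (u t) x) (dir (u t) y)) ≤ g t * ‖x - y‖ ^ β) →
    IntegrableOn (fun t => g t ^ (2 * (1 + β) / β ^ 2)) (Ioo T₀ T) →
    (∀ t ∈ Ico T₀ T, enstrophy (u t) ≤ enstrophy (u T₀)
      * Real.exp (Λ * ∫ s in T₀..t, (1 + g s) ^ (2 * (1 + β) / β ^ 2))) ∧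
    ∃ B, ∀ t ∈ Ico 0 T, ∀ x i, |u t x i| ≤ B := by
  obtain ⟨C1, hC1, hl1⟩ := hL1
  set q : ℝ := 2 * (1 + β) / β ^ 2 with hq
  have hq0 : 0 < q := by positivity
  set I : ℝ := E + C1 * E / ν + 1 with hI
  have hI0 : 0 < I := by positivity
  set a : ℝ := 2 + 4 * 2 ^ (1 / β) * C * I / ν with ha
  have ha0 : 0 < a := by positivity
  set b : ℝ := 3 * √E * (2 * 2 ^ (1 / β)) ^ (5 / 2 : ℝ) with hb
  have hb0 : 0 ≤ b := by positivity
  set Λ' : ℝ := 4 * ν * a ^ (2 / β) + b with hΛ'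
  have hΛ'0 : 0 < Λ' := by positivity
  refine ⟨C * Λ', by positivity, ?_⟩
  intro T u p T₀ g hsol hT₀ hEn hW hg hdir hgi
  set G : ℝ → ℝ := fun t => 1 + g t with hG
  have hG1 : ∀ t ∈ Ioo T₀ T, 1 ≤ G t := fun t ht => by
    have := hg t ht
    simp only [hG]
    linarith
  set R₀ : ℝ → ℝ := fun t => 1 / 2 * (2 * G t) ^ (-(1 / β)) with hR₀
  set A : ℝ → ℝ := fun t => 3 * √(E / R₀ t) with hA
  set δ : ℝ → ℝ := fun t => min (1 / 2) (1 / 2 * ν * R₀ t / (C * I)) with hδ
  set R₁ : ℝ → ℝ := fun t => 1 / 2 * (δ t / G t) ^ (1 / β) with hR₁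
  have hint : IntegrableOn (fun t => Λ' * G t ^ q) (Ioo T₀ T) := by
    refine Integrable.const_mul ?_ _
    have hmeas : AEStronglyMeasurable (fun t => G t ^ q) (volume.restrict (Ioo T₀ T)) := by
      have h1 : AEMeasurable (fun t => g t ^ q) (volume.restrict (Ioo T₀ T)) :=
        hgi.aestronglyMeasurable.aemeasurable
      have h2 : AEMeasurable (fun t => (1 + (g t ^ q) ^ (1 / q)) ^ q)
          (volume.restrict (Ioo T₀ T)) := ((h1.pow_const _).const_add 1).pow_const _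
      refine AEMeasurable.aestronglyMeasurable (h2.congr ?_)
      refine (ae_restrict_iff' measurableSet_Ioo).2 (Eventually.of_forall fun t ht => ?_)
      simp only [hG]
      rw [← Real.rpow_mul (hg t ht), mul_one_div_cancel hq0.ne', Real.rpow_one]
    have hb : IntegrableOn (fun t => (2 : ℝ) ^ q * (1 + g t ^ q)) (Ioo T₀ T) := by
      refine Integrable.const_mul (Integrable.add ?_ hgi) _
      exact integrableOn_const (by simp)
    refine hb.mono' hmeas ?_
    refine (ae_restrict_iff' measurableSet_Ioo).2 (Eventually.of_forall fun t ht => ?_)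
    have hgt := hg t ht
    simp only [hG]
    rw [Real.norm_eq_abs, abs_of_nonneg (by positivity)]
    have h3 : 0 ≤ g t ^ q := Real.rpow_nonneg hgt _
    rcases le_total (g t) 1 with h | h
    · calc (1 + g t) ^ q ≤ 2 ^ q := Real.rpow_le_rpow (by positivity) (by linarith) hq0.le
        _ ≤ 2 ^ q * (1 + g t ^ q) := by
            have : (0 : ℝ) ≤ 2 ^ q := by positivity
            nlinarith
    · calc (1 + g t) ^ q ≤ (2 * g t) ^ q :=
            Real.rpow_le_rpow (by positivity) (by linarith) hq0.le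
        _ = 2 ^ q * g t ^ q := Real.mul_rpow (by norm_num) hgt
        _ ≤ 2 ^ q * (1 + g t ^ q) := by
            have : (0 : ℝ) ≤ 2 ^ q := by positivity
            nlinarith
  have hEt : ∀ t ∈ Ioo T₀ T, energy (u t) ≤ E := by
    intro t ht
    have h1 := (shift_sol hsol hT₀).energy_le hν (t := t - T₀)
      ⟨by linarith [ht.1], by linarith [ht.2]⟩
    simp only [sub_add_cancel, zero_add] at h1
    exact h1.trans hEn
  have key := hcrit ν T u p T₀ A (fun _ => I) (fun _ => 1 / 2) R₀ R₁ (fun t => Λ' * G t ^ q) hν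
    hsol hT₀ (fun t ht => ?_) hint
  · obtain ⟨k1, k2⟩ := key
    refine ⟨fun t ht => ?_, k2⟩
    have h1 := k1 t ht
    rw [intervalIntegral.integral_const_mul, ← mul_assoc] at h1
    exact h1
  · have hG1t := hG1 t ht
    have hG0 : 0 < G t := by linarith
    have hR0p : 0 < R₀ t := by simp only [hR₀]; positivity
    have hδp : 0 < δ t := lt_min (by norm_num) (by positivity)
    have hδ1 : δ t ≤ 1 / 2 := min_le_left _ _
    have hR1p : 0 < R₁ t := by simp only [hR₁]; positivity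
    have hR10 : R₁ t ≤ R₀ t := by
      simp only [hR₁, hR₀]
      refine mul_le_mul_of_nonneg_left ?_ (by norm_num)
      rw [Real.rpow_neg (by positivity), ← Real.inv_rpow (by positivity)]
      refine Real.rpow_le_rpow (by positivity) ?_ (by positivity)
      rw [mul_inv, div_eq_mul_inv]
      exact mul_le_mul_of_nonneg_right (hδ1.trans (by norm_num)) (by positivity)
    have hR01 : R₀ t ≤ 1 / 2 := by
      simp only [hR₀]
      have : (2 * G t) ^ (-(1 / β)) ≤ 1 := Real.rpow_le_one_of_one_le_of_nonpos (by linarith) (by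
        have : 0 < 1 / β := by positivity
        linarith)
      linarith
    have htI : t ∈ Ico 0 T := ⟨by linarith [ht.1, hT₀.1], ht.2⟩
    have hgG : g t ≤ G t := by simp only [hG]; linarith
    have hsp : ∀ i, SP (fun y => u t y i) := fun i => hsol.sp htI i
    have hIb : ∀ x, ∫ y in closedBall x (R₀ t / 4), om (u t) y ≤ I := by
      intro x
      have h1 : ∫ y in closedBall x (R₀ t / 4), om (u t) y ≤ ∫ y in cube, om (u t) y :=
        int_ball_le (om_cont hsp) (om_per hsp) (fun y => om_nonneg _ _) x (by linarith)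
      have h2 := hl1 ν T u p hν hsol T₀ t hT₀.1 ht.1.le ht.2
      have h3 : C1 * energy (u T₀) / ν ≤ C1 * E / ν := by gcongr
      rw [hI]
      linarith
    refine ⟨hI0, by norm_num, by norm_num, hR1p, hR10, by linarith,
      fun x i => int_le_energy hsp hR0p hR01 (hEt t ht) x i, hIb, ?_,
      fun x y hxy hx hy => ?_⟩
    · exact rate_leU hβ0 hβ1 hν hE hI0 hC hG1t rfl rfl rfl rfl rfl rfl
    · have hn := norm_nonneg (x - y)
      have h1 : len (crossProduct (dir (u t) x) (dir (u t) y)) ≤ G t * ‖x - y‖ ^ β :=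
        (hdir t ht x y hx hy).trans (mul_le_mul_of_nonneg_right hgG (Real.rpow_nonneg hn _))
      constructor
      · refine half_le_of_cross hx hy (h1.trans ?_)
        have h2 : ‖x - y‖ ^ β ≤ ((2 * G t) ^ (-(1 / β))) ^ β := by
          refine Real.rpow_le_rpow hn (hxy.trans ?_) hβ0.le
          simp only [hR₀]
          have : 0 < (2 * G t) ^ (-(1 / β)) := by positivity
          linarith
        have h3 : ((2 * G t) ^ (-(1 / β))) ^ β = (2 * G t)⁻¹ := by
          rw [← Real.rpow_mul (by positivity), ← Real.rpow_neg_one]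
          congr 1
          field_simp
        calc G t * ‖x - y‖ ^ β ≤ G t * (2 * G t)⁻¹ := by
              rw [← h3]
              exact mul_le_mul_of_nonneg_left h2 hG0.le
          _ = 1 / 2 := by field_simp
      · have hδle : δ t ≤ min 1 (1 / 2 * ν * R₀ t / (C * I)) :=
          le_min (hδ1.trans (by norm_num)) (min_le_right _ _)
        refine h1.trans ((two_scales (R₁ := (δ t / G t) ^ (1 / β)) hβ0 hβ1 hG0 hδp hn rfl).trans ?_)
        have h4 : 0 < (δ t / G t) ^ (1 / β) := by positivity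
        have h5 : R₁ t ≤ (δ t / G t) ^ (1 / β) := by
          simp only [hR₁]
          linarith
        have h6 : ‖x - y‖ / (δ t / G t) ^ (1 / β) ≤ ‖x - y‖ / R₁ t :=
          div_le_div_of_nonneg_left hn hR1p h5
        exact mul_le_mul hδle (by linarith) (by positivity) (hδp.le.trans hδle)

end Pool.Agent.Q67.VD3
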