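import Pool.Agent.Q67.VD3.Crit
import Pool.Agent.Q67.VD3.Holder
import Pool.Agent.Q95.VD3.FluxU
import Pool.Agent.Q129.VD3.L1
import Pool.Agent.Q67.VD.Dec3
import Pool.Agent.Q225.VD.Gn
import Pool.Agent.Q225.VD.Tri

/-!
Assembly of the criterion on the direction of the vorticity.
-/

set_option autoImplicit false

open MeasureTheory Set Metric
open H459R3.NS Pool.Agent.W268.NS Pool.Agent.Q67.VD Pool.Agent.Q67.VD2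

namespace Pool.Agent.Q67.VD3

theorem fix : StmFixU := fixU Pool.Agent.Q225.VD.gn Pool.Agent.Q225.VD.tri stmDec

theorem fluxU : StmFluxU := Pool.Agent.Q95.VD3.fluxU

theorem l1 : StmL1 := Pool.Agent.Q129.VD3.t_L1

theorem crit : ∃ C : ℝ, 0 < C ∧ CritW C := growthW fix fluxA fluxU

theorem holder_sin {β ν E : ℝ} (hβ0 : 0 < β) (hβ1 : β ≤ 1) (hν : 0 < ν) (hE : 0 ≤ E) :
    ∃ Λ : ℝ, 0 < Λ ∧ ∀ (T : ℝ) (u : ℝ → V → V) (p : ℝ → V → ℝ) (T₀ : ℝ) (g : ℝ → ℝ),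
    IsSol ν T u p → T₀ ∈ Ico 0 T → energy (u T₀) ≤ E → ∫ x in cube, om (u T₀) x ≤ E →
    (∀ t ∈ Ioo T₀ T, 0 ≤ g t) →
    (∀ t ∈ Ioo T₀ T, ∀ x y, 0 < om (u t) x → 0 < om (u t) y →
      len (crossProduct (dir (u t) x) (dir (u t) y)) ≤ g t * ‖x - y‖ ^ β) →
    IntegrableOn (fun t => g t ^ (2 * (1 + β) / β ^ 2)) (Ioo T₀ T) →
    (∀ t ∈ Ico T₀ T, enstrophy (u t) ≤ enstrophy (u T₀)
      * Real.exp (Λ * ∫ s in T₀..t, (1 + g s) ^ (2 * (1 + β) / β ^ 2))) ∧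
    ∃ B, ∀ t ∈ Ico 0 T, ∀ x i, |u t x i| ≤ B := by
  obtain ⟨C, hC, hcrit⟩ := growthU fix fluxU
  exact holderU hC hcrit l1 hβ0 hβ1 hν hE

theorem holder_or {β ν E μ : ℝ} (hβ0 : 0 < β) (hβ1 : β ≤ 1) (hν : 0 < ν) (hE : 0 ≤ E)
    (hμ : 0 < μ) : ∃ Λ : ℝ, 0 < Λ ∧
    ∀ (T : ℝ) (u : ℝ → V → V) (p : ℝ → V → ℝ) (T₀ : ℝ) (g : ℝ → ℝ),
    IsSol ν T u p → T₀ ∈ Ico 0 T → energy (u T₀) ≤ E → (∀ t ∈ Ioo T₀ T, 0 ≤ g t) →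
    (∀ t ∈ Ioo T₀ T, ∀ x y, μ * (1 + g t) ^ (5 / (2 * β)) < om (u t) x →
      μ * (1 + g t) ^ (5 / (2 * β)) < om (u t) y →
      len (dir (u t) x - dir (u t) y) ≤ g t * ‖x - y‖ ^ β) →
    IntegrableOn (fun t => g t ^ ((2 * β + 1) / β ^ 2)) (Ioo T₀ T) →
    (∀ t ∈ Ico T₀ T, enstrophy (u t) ≤ enstrophy (u T₀)
      * Real.exp (Λ * ∫ s in T₀..t, (1 + g s) ^ ((2 * β + 1) / β ^ 2))) ∧
    ∃ B, ∀ t ∈ Ico 0 T, ∀ x i, |u t x i| ≤ B := by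
  obtain ⟨C, hC, hcrit⟩ := growth3
    (fix3 Pool.Agent.Q225.VD.gn Pool.Agent.Q225.VD.tri stmDec) fluxA
  exact holder2 hC hcrit hβ0 hβ1 hν hE hμ

end Pool.Agent.Q67.VD3
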