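import Pool.Agent.Q67.VD3.Near

/-!
The local estimate of the production of enstrophy, with a cut-off function.
-/

set_option autoImplicit false

open MeasureTheory Set Metric Filter
open scoped ENNReal ContDiff Topology
open H459R3.NS Pool.Agent.W268.NS Pool.Agent.Q67.VD Pool.Agent.Q67.VD2

namespace Pool.Agent.Q67.VD3

/-- The local estimate with a cut-off function. -/
theorem local_estU (hdec : StmDec) {D : ℝ} (hD : 0 < D) : ∃ C : ℝ, 0 < C ∧
    ∀ (v : V → V) (K L ρ δ M A : ℝ), (∀ i, SP (fun y => v y i)) →
    (∀ x, ∑ i, pd i (fun y => v y i) x = 0) → 0 ≤ K → 0 < ρ → ρ ≤ L → L ≤ 1 → 0 ≤ δ → δ ≤ 1 →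
    0 < M → 0 ≤ A → (∀ x i, ∫ y in closedBall x L, |v y i| ≤ A * L ^ 2) → Mor K L (om v) → CohU v M δ ρ (4 * L) → ∀ (x₀ : V) (χ : V → ℝ), ContDiff ℝ ∞ χ →
    (∀ y, y ∉ closedBall x₀ ρ → χ y = 0) → (∀ y, 0 ≤ χ y) → (∀ y, χ y ≤ 1) →
    (∀ j y, |pd j χ y| ≤ D / ρ) →
      |∫ y, χ y * stretchRate v y| ≤ C * ∫ y in closedBall x₀ ρ, Bf2 v K L ρ δ M A y := by
  obtain ⟨C1, hC1, dec⟩ := hdec
  obtain ⟨C2, hC2, hbs⟩ := pd_bs_le
  set c1 : ℝ := 72 * C1 * (2 * D + 5) with hc1
  set c2 : ℝ := 3 * C1 * (9 * D + 6 * C2) with hc2
  set c3 : ℝ := 6 * (168 * C1) + 81 * (48 * C1) + 4 with hc3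
  refine ⟨3 * c1 + 9 * c2 + c3, by positivity, ?_⟩
  intro v K L ρ δ M A hv hdiv hK hρ hρL hL hδ hδ1 hM hA0 hA hm hco x₀ χ hχ hχ0 hχn hχ1 hχd
  have hBc := Bf2_cont hv K L ρ δ M A
  have hBn := Bf2_nonneg v hK hρ hρL hδ hM.le hA0
  have hsc := (sp_stretchRate hv).cont
  have hI0 : 0 ≤ ∫ y in closedBall x₀ ρ, Bf2 v K L ρ δ M A y := integral_nonneg hBn
  have hDρ : 0 ≤ D / ρ := by positivity
  have hlog := log_nonneg' hρ hρL
  set F : ℝ := δ * K / ρ ^ 2 + M * (1 + Real.log (L / ρ)) + A / L ^ 2 with hF
  have hF1 : 0 ≤ δ * K / ρ ^ 2 := by positivity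
  have hF2 : 0 ≤ M * (1 + Real.log (L / ρ)) := by positivity
  have hF3 : 0 ≤ A / L ^ 2 := by positivity
  by_cases hbig : ∃ y₀ ∈ closedBall x₀ ρ, M < om v y₀
  · obtain ⟨y₀, hy0, hb⟩ := hbig
    set e : V := dir v y₀ with hedef
    have he : len e = 1 := len_dir (hM.trans hb)
    obtain ⟨w₂, hw, hw1, hw2⟩ := VD3.exists_w hv hdiv hK hρ hρL hL hδ hM hA0 hA hm hco hy0 hb hC1 dec
    obtain ⟨V₂, hV, hV1, hV2⟩ := exists_V hv hdiv hK hρ hρL hL hA0 hA hm hC1 dec
    have hbb : ∀ y ∈ closedBall x₀ ρ, ∀ i, |bs e v M i y| ≤ 3 * δ * om v y := fun y hy i =>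
      VD3.bs_ball hρ hρL hδ hM hco hy0 hb hy i
    -- the pieces
    set R : V → ℝ := fun y => af e v y * ∑ i, (vort v y i + bf e v i y) * pd i w₂ y
      + ∑ i, ∑ j, bs e v M i y * bs e v M j y * pd i (V₂ j) y
      + ∑ i, ∑ j, (bf e v i y * bf e v j y - bs e v M i y * bs e v M j y) * gradM v y i j with hR
    have hRc : Continuous R := by
      have a1 := (sp_af hv e).cont
      have a2 := fun i => (sp_vort hv i).cont
      have a3 := fun i => (sp_bf hv e i).cont
      have a4 := fun i => (hw.pd i).cont
      have a5 := fun i => (sp_bs hv e M i).cont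
      have a6 := fun i j => ((hV j).pd i).cont
      have a7 := fun i j => (sp_grad hv i j).cont
      rw [hR]
      fun_prop
    have hid : ∀ y, χ y * stretchRate v y
        = (∑ i, (χ y * (af e v y * (vort v y i + bf e v i y)))
            * pd i (fun z => lin e v z - w₂ z) y)
          + (∑ i, ∑ j, (χ y * (bs e v M i y * bs e v M j y))
            * pd i (fun z => v z j - V₂ j z) y) + χ y * R y := by
      intro y
      rw [stretch_split hv e y]
      have e1 : ∀ i, pd i (fun z => lin e v z - w₂ z) y = pd i (lin e v) y - pd i w₂ y :=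
        fun i => pd_sub' (sp_lin hv e) hw i y
      have e2 : ∀ i j, pd i (fun z => v z j - V₂ j z) y = gradM v y i j - pd i (V₂ j) y :=
        fun i j => pd_sub' (hv j) (hV j) i y
      simp_rw [e1, e2]
      rw [hR]
      simp only [Fin.sum_univ_three]
      ring
    -- bounds
    have n1 : ∀ i, |∫ y, (χ y * (af e v y * (vort v y i + bf e v i y)))
        * pd i (fun z => lin e v z - w₂ z) y| ≤ ∫ y in closedBall x₀ ρ, c1 * Bf2 v K L ρ δ M A y := by
      intro i
      refine near_part ?_ ?_ (hBc.const_mul _) ?_ i ?_
      · exact (hχ.mul (sp_F1 hv e i).smooth).of_le (by norm_cast)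
      · exact ((sp_lin hv e).smooth.sub hw.smooth).of_le (by norm_cast)
      · intro y hy
        rw [hχ0 y hy, zero_mul]
      · intro y hy
        have hO := om_nonneg v y
        have hDm := dom_nonneg v y
        have hp := pot_nonneg (om v) ρ y
        have hg := gm_nonneg v y
        have b1 := cut_le hχ (sp_F1 hv e i) hχn hχ1 hχd i (F1_le he i y)
          (pd_F1_le hv he i i y) hDρ
        have b2 := hw1 y hy
        rw [abs_mul]
        have b3 : 5 * (om v y * dom v y) + D / ρ * (2 * om v y ^ 2)
            ≤ (2 * D + 5) * (om v y * dom v y + om v y ^ 2 / ρ) := by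
          have q1 : 0 ≤ om v y ^ 2 / ρ := by positivity
          have q2 : 0 ≤ om v y * dom v y := by positivity
          have q3 : D / ρ * (2 * om v y ^ 2) = 2 * D * (om v y ^ 2 / ρ) := by ring
          rw [q3]
          nlinarith [mul_nonneg hD.le q2]
        calc _ ≤ ((2 * D + 5) * (om v y * dom v y + om v y ^ 2 / ρ))
              * (72 * C1 * (δ * pot ρ (om v) y + M * ρ)) :=
              mul_le_mul (b1.trans b3) b2 (abs_nonneg _) (by positivity)
          _ = c1 * ((δ * pot ρ (om v) y + M * ρ) * (om v y * dom v y + om v y ^ 2 / ρ)) := by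
              rw [hc1]; ring
          _ ≤ c1 * Bf2 v K L ρ δ M A y := by
              refine mul_le_mul_of_nonneg_left ?_ (by positivity)
              unfold Bf2
              rw [← hF]
              have q1 : 0 ≤ F * om v y ^ 2 := by positivity
              have q2 : 0 ≤ M * (om v y * gm v y) := by positivity
              linarith
    have n3 : ∀ i j, |∫ y, (χ y * (bs e v M i y * bs e v M j y))
        * pd i (fun z => v z j - V₂ j z) y| ≤ ∫ y in closedBall x₀ ρ, c2 * Bf2 v K L ρ δ M A y := by
      intro i j
      refine near_part ?_ ?_ (hBc.const_mul _) ?_ i ?_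
      · exact (hχ.mul ((sp_bs hv e M i).mul (sp_bs hv e M j)).smooth).of_le (by norm_cast)
      · exact ((hv j).smooth.sub (hV j).smooth).of_le (by norm_cast)
      · intro y hy
        rw [hχ0 y hy, zero_mul]
      · intro y hy
        have hO := om_nonneg v y
        have hDm := dom_nonneg v y
        have hp := pot_nonneg (om v) ρ y
        have hg := gm_nonneg v y
        have a1 := hbb y hy i
        have a2 := hbb y hy j
        have a0 : |bs e v M i y * bs e v M j y| ≤ 9 * δ * om v y ^ 2 := by
          rw [abs_mul]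
          calc |bs e v M i y| * |bs e v M j y| ≤ (3 * δ * om v y) * (3 * δ * om v y) :=
                mul_le_mul a1 a2 (abs_nonneg _) (by positivity)
            _ = 9 * (δ * δ) * om v y ^ 2 := by ring
            _ ≤ 9 * δ * om v y ^ 2 := by
                refine mul_le_mul_of_nonneg_right ?_ (sq_nonneg _)
                nlinarith
        have b1 := cut_le hχ ((sp_bs hv e M i).mul (sp_bs hv e M j)) hχn hχ1 hχd i a0
          (pd_F3_le hv i j i y a1 a2 (hbs v hv e M he hM i i y) (hbs v hv e M he hM j i y)
            (by positivity)) hDρ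
        have b2 := hV1 j y
        rw [abs_mul]
        have b3 : 2 * C2 * (3 * δ * om v y * dom v y) + D / ρ * (9 * δ * om v y ^ 2)
            ≤ (9 * D + 6 * C2) * (δ * (om v y * dom v y + om v y ^ 2 / ρ)) := by
          have q1 : 0 ≤ δ * (om v y ^ 2 / ρ) := by positivity
          have q2 : 0 ≤ δ * (om v y * dom v y) := by positivity
          have q3 : D / ρ * (9 * δ * om v y ^ 2) = 9 * D * (δ * (om v y ^ 2 / ρ)) := by ring
          rw [q3]
          nlinarith [mul_nonneg hD.le q2, mul_nonneg hC2.le q1]
        calc _ ≤ ((9 * D + 6 * C2) * (δ * (om v y * dom v y + om v y ^ 2 / ρ)))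
              * (3 * C1 * pot ρ (om v) y) :=
              mul_le_mul (b1.trans b3) b2 (abs_nonneg _) (by positivity)
          _ = c2 * ((δ * pot ρ (om v) y) * (om v y * dom v y + om v y ^ 2 / ρ)) := by
              rw [hc2]; ring
          _ ≤ c2 * Bf2 v K L ρ δ M A y := by
              refine mul_le_mul_of_nonneg_left ?_ (by positivity)
              unfold Bf2
              rw [← hF]
              have q1 : 0 ≤ F * om v y ^ 2 := by positivity
              have q2 : 0 ≤ M * (om v y * gm v y) := by positivity
              have q3 : 0 ≤ M * ρ * (om v y * dom v y + om v y ^ 2 / ρ) := by positivity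
              linarith
    have n2 : |∫ y, χ y * R y| ≤ ∫ y in closedBall x₀ ρ, c3 * Bf2 v K L ρ δ M A y := by
      refine far_part hχ.continuous hRc (hBc.const_mul _) hχ0 fun y hy => ?_
      have hO := om_nonneg v y
      have hDm := dom_nonneg v y
      have hp := pot_nonneg (om v) ρ y
      have hg := gm_nonneg v y
      have r1 : |af e v y * ∑ i, (vort v y i + bf e v i y) * pd i w₂ y|
          ≤ 6 * (168 * C1) * (F * om v y ^ 2) := by
        have t1 : |∑ i, (vort v y i + bf e v i y) * pd i w₂ y|
            ≤ 3 * ((2 * om v y) * (168 * C1 * F)) := by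
          refine abs_sum3' fun i => ?_
          rw [abs_mul]
          refine mul_le_mul ?_ (hw2 y hy i) (abs_nonneg _) (by positivity)
          exact (abs_add_le _ _).trans (by linarith [vort_le v y i, bf_le he v i y])
        rw [abs_mul]
        calc _ ≤ om v y * (3 * ((2 * om v y) * (168 * C1 * F))) :=
              mul_le_mul (af_le he v y) t1 (abs_nonneg _) hO
          _ = _ := by ring
      have r2 : |∑ i, ∑ j, bs e v M i y * bs e v M j y * pd i (V₂ j) y|
          ≤ 81 * (48 * C1) * (F * om v y ^ 2) := by
        have t1 : ∀ i j, |bs e v M i y * bs e v M j y * pd i (V₂ j) y|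
            ≤ 9 * (48 * C1) * (F * om v y ^ 2) := by
          intro i j
          rw [abs_mul, abs_mul]
          have q0 : 0 ≤ K / ρ ^ 2 := by positivity
          have q1 : δ * δ * (K / ρ ^ 2 + (A / L ^ 2)) ≤ F := by
            have q2 : δ * δ * (K / ρ ^ 2) ≤ δ * K / ρ ^ 2 := by
              rw [mul_div_assoc]
              nlinarith [mul_nonneg hδ q0]
            have q3 : δ * δ * (A / L ^ 2) ≤ (A / L ^ 2) := by
              have : δ * δ ≤ 1 := by nlinarith
              nlinarith
            rw [hF]
            linarith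
          calc |bs e v M i y| * |bs e v M j y| * |pd i (V₂ j) y|
              ≤ (3 * δ * om v y) * (3 * δ * om v y)
                * (48 * C1 * (K / ρ ^ 2 + (A / L ^ 2))) := by
                refine mul_le_mul ?_ (hV2 j i y) (abs_nonneg _) (by positivity)
                exact mul_le_mul (hbb y hy i) (hbb y hy j) (abs_nonneg _) (by positivity)
            _ = 9 * (48 * C1) * om v y ^ 2 * (δ * δ * (K / ρ ^ 2 + (A / L ^ 2))) := by
                ring
            _ ≤ 9 * (48 * C1) * om v y ^ 2 * F := mul_le_mul_of_nonneg_left q1 (by positivity)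
            _ = _ := by ring
        refine (abs_sum3' fun i => abs_sum3' fun j => t1 i j).trans (le_of_eq ?_)
        ring
      have r3 : |∑ i, ∑ j, (bf e v i y * bf e v j y - bs e v M i y * bs e v M j y)
          * gradM v y i j| ≤ 4 * (M * (om v y * gm v y)) := by
        have t1 : ∀ i j, |bf e v i y * bf e v j y - bs e v M i y * bs e v M j y|
            ≤ 4 * M * om v y := by
          intro i j
          have e1 : bf e v i y * bf e v j y - bs e v M i y * bs e v M j y
              = bf e v i y * (bf e v j y - bs e v M j y)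
                + (bf e v i y - bs e v M i y) * bs e v M j y := by ring
          rw [e1]
          refine (abs_add_le _ _).trans ?_
          rw [abs_mul, abs_mul]
          have q1 : |bf e v i y| * |bf e v j y - bs e v M j y| ≤ om v y * (2 * M) :=
            mul_le_mul (bf_le he v i y) (bf_sub_bs_le he hM v j y) (abs_nonneg _) hO
          have q2 : |bf e v i y - bs e v M i y| * |bs e v M j y| ≤ (2 * M) * om v y :=
            mul_le_mul (bf_sub_bs_le he hM v i y) (bs_le he v M j y) (abs_nonneg _)
              (by positivity)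
          linarith
        refine (Finset.abs_sum_le_sum_abs _ _).trans ?_
        have t2 : ∀ i ∈ (Finset.univ : Finset (Fin 3)),
            |∑ j, (bf e v i y * bf e v j y - bs e v M i y * bs e v M j y) * gradM v y i j|
              ≤ ∑ j, 4 * M * om v y * |gradM v y i j| := by
          intro i _
          refine (Finset.abs_sum_le_sum_abs _ _).trans (Finset.sum_le_sum fun j _ => ?_)
          rw [abs_mul]
          exact mul_le_mul_of_nonneg_right (t1 i j) (abs_nonneg _)
        refine (Finset.sum_le_sum t2).trans (le_of_eq ?_)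
        unfold gm
        simp_rw [← Finset.mul_sum]
        ring
      have hRle : |R y| ≤ c3 * Bf2 v K L ρ δ M A y := by
        have s1 : |R y| ≤ 6 * (168 * C1) * (F * om v y ^ 2) + 81 * (48 * C1) * (F * om v y ^ 2)
            + 4 * (M * (om v y * gm v y)) := by
          rw [hR]
          refine (abs_add_le _ _).trans (add_le_add ((abs_add_le _ _).trans (add_le_add r1 r2)) r3)
        refine s1.trans ?_
        unfold Bf2
        rw [← hF]
        have q1 : 0 ≤ F * om v y ^ 2 := by positivity
        have q2 : 0 ≤ M * (om v y * gm v y) := by positivity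
        have q3 : 0 ≤ (δ * pot ρ (om v) y + M * ρ) * (om v y * dom v y + om v y ^ 2 / ρ) := by
          positivity
        have q4 : 0 ≤ C1 := hC1.le
        rw [hc3]
        nlinarith [mul_nonneg q4 q1, mul_nonneg q4 q2, mul_nonneg q4 q3]
      rw [abs_mul, abs_of_nonneg (hχn y)]
      calc χ y * |R y| ≤ 1 * |R y| := mul_le_mul_of_nonneg_right (hχ1 y) (abs_nonneg _)
        _ ≤ _ := by rw [one_mul]; exact hRle
    -- assembling
    have i1 : ∀ i, Integrable (fun y => (χ y * (af e v y * (vort v y i + bf e v i y)))
        * pd i (fun z => lin e v z - w₂ z) y) := by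
      intro i
      refine Continuous.integrable_of_hasCompactSupport ?_ (cs_of (x₀ := x₀) (ρ := ρ) fun y hy => by
        rw [hχ0 y hy, zero_mul, zero_mul])
      exact (hχ.continuous.mul (sp_F1 hv e i).cont).mul
        ((SP.sub' (sp_lin hv e) hw).pd i).cont
    have i3 : ∀ i j, Integrable (fun y => (χ y * (bs e v M i y * bs e v M j y))
        * pd i (fun z => v z j - V₂ j z) y) := by
      intro i j
      refine Continuous.integrable_of_hasCompactSupport ?_ (cs_of (x₀ := x₀) (ρ := ρ) fun y hy => by
        rw [hχ0 y hy, zero_mul, zero_mul])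
      exact (hχ.continuous.mul ((sp_bs hv e M i).mul (sp_bs hv e M j)).cont).mul
        ((SP.sub' (hv j) (hV j)).pd i).cont
    have i2 : Integrable (fun y => χ y * R y) := by
      refine Continuous.integrable_of_hasCompactSupport (hχ.continuous.mul hRc)
        (cs_of (x₀ := x₀) (ρ := ρ) fun y hy => ?_)
      show χ y * R y = 0
      rw [hχ0 y hy, zero_mul]
    have hs1 : Integrable (fun y => ∑ i, (χ y * (af e v y * (vort v y i + bf e v i y)))
        * pd i (fun z => lin e v z - w₂ z) y) := integrable_finsetSum _ fun i _ => i1 i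
    have hs3 : Integrable (fun y => ∑ i, ∑ j, (χ y * (bs e v M i y * bs e v M j y))
        * pd i (fun z => v z j - V₂ j z) y) :=
      integrable_finsetSum _ fun i _ => integrable_finsetSum _ fun j _ => i3 i j
    have hint : ∫ y, χ y * stretchRate v y
        = (∑ i, ∫ y, (χ y * (af e v y * (vort v y i + bf e v i y)))
            * pd i (fun z => lin e v z - w₂ z) y)
          + (∑ i, ∑ j, ∫ y, (χ y * (bs e v M i y * bs e v M j y))
            * pd i (fun z => v z j - V₂ j z) y) + ∫ y, χ y * R y := by
      simp_rw [hid]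
      have hs13 : Integrable (fun y => (∑ i, (χ y * (af e v y * (vort v y i + bf e v i y)))
            * pd i (fun z => lin e v z - w₂ z) y)
          + ∑ i, ∑ j, (χ y * (bs e v M i y * bs e v M j y))
            * pd i (fun z => v z j - V₂ j z) y) := hs1.add hs3
      rw [integral_add hs13 i2, integral_add hs1 hs3,
        integral_finsetSum _ fun i _ => i1 i,
        integral_finsetSum _ fun i _ => integrable_finsetSum _ fun j _ => i3 i j]
      congr 2
      exact Finset.sum_congr rfl fun i _ => integral_finsetSum _ fun j _ => i3 i j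
    rw [hint]
    have m1 := abs_sum3' n1
    have m3 := abs_sum3' fun i => abs_sum3' fun j => n3 i j
    rw [integral_const_mul] at m1 m3 n2
    refine (abs_add_le _ _).trans ((add_le_add (abs_add_le _ _) le_rfl).trans ?_)
    linarith
  · push Not at hbig
    have h1 := far_part (χ := χ) (R := stretchRate v) (P := Bf2 v K L ρ δ M A) hχ.continuous hsc hBc
      hχ0 (fun y hy => by
        rw [abs_mul, abs_of_nonneg (hχn y)]
        have h2 := stretch_le v y
        have h3 := hbig y hy
        have hO := om_nonneg v y
        have hDm := dom_nonneg v y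
        have hp := pot_nonneg (om v) ρ y
        have hg := gm_nonneg v y
        have h4 : om v y * (om v y * gm v y) ≤ M * (om v y * gm v y) :=
          mul_le_mul_of_nonneg_right h3 (by positivity)
        calc χ y * |stretchRate v y| ≤ 1 * |stretchRate v y| :=
              mul_le_mul_of_nonneg_right (hχ1 y) (abs_nonneg _)
          _ ≤ M * (om v y * gm v y) := by rw [one_mul]; exact h2.trans h4
          _ ≤ Bf2 v K L ρ δ M A y := by
              unfold Bf2
              rw [← hF]
              have q1 : 0 ≤ F * om v y ^ 2 := by positivity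
              have q3 : 0 ≤ (δ * pot ρ (om v) y + M * ρ)
                * (om v y * dom v y + om v y ^ 2 / ρ) := by positivity
              linarith)
    refine h1.trans ?_
    have h5 : (1 : ℝ) ≤ 3 * c1 + 9 * c2 + c3 := by
      have : 4 ≤ c3 := by rw [hc3]; linarith
      have : 0 ≤ c1 := by positivity
      have : 0 ≤ c2 := by positivity
      linarith
    calc _ = 1 * ∫ y in closedBall x₀ ρ, Bf2 v K L ρ δ M A y := (one_mul _).symm
      _ ≤ _ := mul_le_mul_of_nonneg_right h5 hI0

end Pool.Agent.Q67.VD3
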