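import Pool.Agent.Q67.VD.Alg

/-!
The criterion on the direction of the vorticity without orientation: definitions, and the
statements of two lemmas.

`StmFluxU` (one time, no equation). Fix `x` and `y0` in `closedBall x r` with `om v y0 ≠ 0` (else
trivial), `e = dir v y0`. On `closedBall x (R / 2)` one has `κ om ≤ |e ⬝ᵥ w|`, `w = vort v`. For
`ε > 0` put `a = e ⬝ᵥ w`, `z = (a / √(a² + ε²)) w`. Then `e ⬝ᵥ z ≥ |a| - ε`, `|z| ≤ |w|`, and
`|div z| = |ε² (a² + ε²)^(-3/2) w·∇a| ≤ κ⁻¹ (|a| ε² / (a² + ε²)^(3/2)) |∇a|`, which is bounded by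
`κ⁻¹ |∇a|` and tends to `0` pointwise, so `∫ χ r arctan(s) div z → 0` by dominated convergence. With
the cut-off `χ` of the ball of radius `R / 8` (support in `R / 4`), `s = e ⬝ᵥ (y - x) / r`:
`∫ χ (1 + s²)⁻¹ (e ⬝ᵥ z) = - ∫ ∇χ·z r arctan s - ∫ χ r arctan(s) div z`. This is the second step in
the proof of `Pool.Agent.Q67.VD2.fluxA` (there `z = w + 2 M e`).

`StmL1` (Constantin 1990). `d/dt ∫ √(|ω|² + ε²) ≤ ∫ |ω| |∇u|`: the transport term vanishes, the
Laplacian gives `-ν ∫ (|∇ω|² / q - (ω·∇ω)² / q³) ≤ 0`, `q = √(|ω|² + ε²)`; integrate in time, use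
`2 ν ∫ enstrophy ≤ energy`, and let `ε → 0`.
-/

set_option autoImplicit false

open MeasureTheory Set Metric
open scoped ENNReal ContDiff
open H459R3.NS Pool.Agent.W268.NS Pool.Agent.Q67.VD

namespace Pool.Agent.Q67.VD3

/-- The direction of the vorticity, up to its sign, varies at most by `δ (1 + ‖x - y‖ / ρ)` over
distances `‖x - y‖ ≤ R`, where the vorticity exceeds `M`. -/
def CohU (v : V → V) (M δ ρ R : ℝ) : Prop := ∀ x y, ‖x - y‖ ≤ R → M < om v x → M < om v y →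
  len (crossProduct (dir v x) (dir v y)) ≤ δ * (1 + ‖x - y‖ / ρ)

/-- The Morrey bound for the vorticity from the condition on the double cone, on the scale `R`. -/
def StmFluxU : Prop := ∃ C : ℝ, 0 < C ∧ ∀ (v : V → V) (R κ L : ℝ), (∀ i, SP (fun y => v y i)) →
  (∀ x, ∑ i, pd i (fun y => v y i) x = 0) → 0 < R → 0 < κ → κ ≤ 1 → 0 ≤ L →
  (∀ x, ∫ y in closedBall x (R / 4), om v y ≤ L) →
  (∀ x y, ‖x - y‖ ≤ R → κ * (om v x * om v y) ≤ |vort v x ⬝ᵥ vort v y|) →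
  Mor (C / κ * (L / R)) (R / 8) (om v)

/-- The integral of the length of the vorticity is bounded by the data. -/
def StmL1 : Prop := ∃ C : ℝ, 0 < C ∧ ∀ (ν T : ℝ) (u : ℝ → V → V) (p : ℝ → V → ℝ), 0 < ν →
  IsSol ν T u p → ∀ T₀ t : ℝ, 0 ≤ T₀ → T₀ ≤ t → t < T →
    ∫ x in cube, om (u t) x ≤ (∫ x in cube, om (u T₀) x) + C * energy (u T₀) / ν

end Pool.Agent.Q67.VD3
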