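import Pool.Agent.Q67.VD2.LocA
import Pool.Agent.Q67.VD3.Stm

/-!
The velocity near a point with large vorticity; the direction of the vorticity without orientation.
-/

set_option autoImplicit false

open MeasureTheory Set Metric Filter
open scoped ENNReal ContDiff Topology
open H459R3.NS Pool.Agent.W268.NS Pool.Agent.Q67.VD Pool.Agent.Q67.VD2

namespace Pool.Agent.Q67.VD3

/-- the cross product of the vorticity with the direction at a point with large vorticity -/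
lemma cross_dir_le {v : V → V} {M δ ρ R : ℝ} (hM : 0 ≤ M) (hρ : 0 < ρ) (hδ : 0 ≤ δ)
    (h : CohU v M δ ρ R) {y₀ y : V} (h0 : M < om v y₀) (hy : ‖y - y₀‖ ≤ R) :
    len (crossProduct (dir v y₀) (vort v y)) ≤ δ * (1 + ‖y - y₀‖ / ρ) * om v y + M ∧
    (M < om v y → len (crossProduct (dir v y₀) (vort v y)) ≤ δ * (1 + ‖y - y₀‖ / ρ) * om v y) := by
  have hd : len (dir v y₀) = 1 := len_dir (hM.trans_lt h0)
  have key : M < om v y →
      len (crossProduct (dir v y₀) (vort v y)) ≤ δ * (1 + ‖y - y₀‖ / ρ) * om v y := by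
    intro hy1
    have hy' : ‖y₀ - y‖ ≤ R := by rwa [norm_sub_rev]
    have h1 := h y₀ y hy' h0 hy1
    rw [norm_sub_rev] at h1
    have hpos : 0 < om v y := hM.trans_lt hy1
    have h2 : crossProduct (dir v y₀) (vort v y)
        = om v y • crossProduct (dir v y₀) (dir v y) := by
      conv_lhs => rw [← om_smul_dir hpos]
      rw [map_smul]
    rw [h2, len_smul, abs_of_pos hpos, mul_comm]
    exact mul_le_mul_of_nonneg_right h1 hpos.le
  refine ⟨?_, key⟩
  rcases lt_or_ge M (om v y) with h1 | h1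
  · have := key h1
    linarith
  · have h2 : len (crossProduct (dir v y₀) (vort v y)) ≤ M := by
      refine (cross_len_le _ _).trans ?_
      rw [hd, one_mul]
      exact h1
    have h3 : 0 ≤ δ * (1 + ‖y - y₀‖ / ρ) * om v y :=
      mul_nonneg (mul_nonneg hδ (by positivity)) (om_nonneg _ _)
    linarith

section

variable {v : V → V} {K L ρ δ M A : ℝ} {x₀ y₀ : V}
  (hv : ∀ i, SP (fun y => v y i)) (hdiv : ∀ x, ∑ i, pd i (fun y => v y i) x = 0) (hK : 0 ≤ K)
  (hρ : 0 < ρ) (hρL : ρ ≤ L) (hL : L ≤ 1) (hδ : 0 ≤ δ) (hM : 0 < M) (hA0 : 0 ≤ A)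
  (hA : ∀ x i, ∫ y in closedBall x L, |v y i| ≤ A * L ^ 2)
  (hm : Mor K L (om v)) (hco : CohU v M δ ρ (4 * L)) (hy0 : y₀ ∈ closedBall x₀ ρ)
  (hb : M < om v y₀)

include hρ hρL hδ hM hco hy0 hb in
lemma G_le {y z : V} (hy : y ∈ closedBall x₀ ρ) (hz : ‖z‖ ≤ L) (i : Fin 3) :
    |Gf (dir v y₀) v i (y + z)| ≤ δ * (3 + ‖z‖ / ρ) * om v (y + z) + M ∧
    (M < om v (y + z) → len (crossProduct (dir v y₀) (vort v (y + z)))
      ≤ δ * (3 + ‖z‖ / ρ) * om v (y + z)) := by
  rw [mem_closedBall, dist_eq_norm] at hy hy0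
  have h1 : ‖y + z - y₀‖ ≤ ‖z‖ + 2 * ρ := by
    have e : y + z - y₀ = z + ((y - x₀) - (y₀ - x₀)) := by abel
    rw [e]
    refine (norm_add_le _ _).trans ?_
    have := norm_sub_le (y - x₀) (y₀ - x₀)
    linarith
  have h2 := cross_dir_le hM.le hρ hδ hco hb (y := y + z) (by linarith)
  have h3 : 1 + ‖y + z - y₀‖ / ρ ≤ 3 + ‖z‖ / ρ := by
    have : ‖y + z - y₀‖ / ρ ≤ (‖z‖ + 2 * ρ) / ρ := div_le_div_of_nonneg_right h1 hρ.le
    rw [add_div, mul_div_assoc, div_self hρ.ne', mul_one] at this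
    linarith
  have h4 : δ * (1 + ‖y + z - y₀‖ / ρ) * om v (y + z) ≤ δ * (3 + ‖z‖ / ρ) * om v (y + z) :=
    mul_le_mul_of_nonneg_right (mul_le_mul_of_nonneg_left h3 hδ) (om_nonneg _ _)
  refine ⟨(abs_Gf_le _ _ _ _).trans (h2.1.trans (by linarith)), fun h5 => (h2.2 h5).trans h4⟩

include hρ hρL hδ hM hco hy0 hb in
lemma bs_ball {y : V} (hy : y ∈ closedBall x₀ ρ) (i : Fin 3) :
    |bs (dir v y₀) v M i y| ≤ 3 * δ * om v y := by
  have hd : len (dir v y₀) = 1 := len_dir (hM.trans hb)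
  rcases lt_or_ge M (om v y) with h | h
  · have h1 := (G_le hρ hρL hδ hM hco hy0 hb hy (z := 0) (by simpa using (hρ.trans_le hρL).le) i).2
    rw [add_zero, norm_zero, zero_div, add_zero] at h1
    have h2 := h1 h
    unfold bs
    rw [abs_mul, abs_of_nonneg (th_nonneg _ _ _)]
    calc th v M y * |bf (dir v y₀) v i y| ≤ 1 * (3 * δ * om v y) := by
          refine mul_le_mul (th_le_one _ _ _) ?_ (abs_nonneg _) zero_le_one
          refine (perp_le hd i).trans (h2.trans (le_of_eq ?_))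
          ring
      _ = _ := one_mul _
  · unfold bs
    rw [th_zero hM h, zero_mul, abs_zero]
    have := om_nonneg v y
    positivity

include hv hdiv hK hρ hρL hL hδ hM hA0 hA hm hco hy0 hb in
lemma exists_w {C : ℝ} (hC : 0 < C) (dec : Dec C) : ∃ w₂ : V → ℝ, SP w₂ ∧
    (∀ y ∈ closedBall x₀ ρ, |lin (dir v y₀) v y - w₂ y|
      ≤ 72 * C * (δ * pot ρ (om v) y + M * ρ)) ∧
    (∀ y ∈ closedBall x₀ ρ, ∀ j, |pd j w₂ y|
      ≤ 168 * C * (δ * K / ρ ^ 2 + M * (1 + Real.log (L / ρ)) + A / L ^ 2)) := by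
  have hd : len (dir v y₀) = 1 := len_dir (hM.trans hb)
  have hL0 : 0 < L := hρ.trans_le hρL
  obtain ⟨w₂, h1, h2, h3⟩ := dec ρ L (lin (dir v y₀) v) (Gf (dir v y₀) v) hρ hρL (by linarith)
    (sp_lin hv _) (fun i => sp_Gf hv _ i) (lap_lin hv hdiv _)
  refine ⟨w₂, h1, fun y hy => (h2 y).trans ?_, fun y hy j => (h3 y j).trans ?_⟩
  · have h4 : ∀ i, pot ρ (Gf (dir v y₀) v i) y ≤ (4 * δ) * pot ρ (om v) y + 24 * M * ρ := by
      intro i
      refine pot_le (sp_Gf hv _ i).per (sp_Gf hv _ i).cont (om_per hv) (om_cont hv) hρ.le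
        fun z hz => ?_
      refine (G_le hρ hρL hδ hM hco hy0 hb hy (hz.trans hρL) i).1.trans ?_
      rw [abs_of_nonneg (om_nonneg _ _)]
      have h5 : ‖z‖ / ρ ≤ 1 := (div_le_one hρ).2 hz
      have h6 : δ * (3 + ‖z‖ / ρ) ≤ 4 * δ := by nlinarith
      linarith [mul_le_mul_of_nonneg_right h6 (om_nonneg v (y + z))]
    have h5 : ∑ i, pot ρ (Gf (dir v y₀) v i) y ≤ 72 * (δ * pot ρ (om v) y + M * ρ) := by
      refine (Finset.sum_le_sum fun i _ => h4 i).trans ?_
      have hp := pot_nonneg (om v) ρ y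
      have : 0 ≤ δ * pot ρ (om v) y := mul_nonneg hδ hp
      simp only [Finset.sum_const, Finset.card_univ, Fintype.card_fin, nsmul_eq_mul]
      push_cast
      linarith
    calc C * ∑ i, pot ρ (Gf (dir v y₀) v i) y ≤ C * (72 * (δ * pot ρ (om v) y + M * ρ)) :=
          mul_le_mul_of_nonneg_left h5 hC.le
      _ = _ := by ring
  · have h4 : ∀ i, far ρ L (Gf (dir v y₀) v i) y
        ≤ 8 * (7 * δ) * K / ρ ^ 2 + 24 * (M * (1 + Real.log (L / ρ))) := by
      intro i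
      refine far_le2 (om_per hv) (om_cont hv) hm hρ hρL (by positivity) hM.le
        fun z hz1 hz2 => ?_
      refine (G_le hρ hρL hδ hM hco hy0 hb hy hz2 i).1.trans ?_
      rw [abs_of_nonneg (om_nonneg _ _)]
      have h5 : 1 ≤ 2 * (‖z‖ / ρ) := by
        rw [← mul_div_assoc, le_div_iff₀ hρ]
        linarith
      have h6 : δ * (3 + ‖z‖ / ρ) ≤ 7 * δ * ‖z‖ / ρ := by
        rw [mul_div_assoc]
        nlinarith
      linarith [mul_le_mul_of_nonneg_right h6 (om_nonneg v (y + z))]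
    have h5 := mean_lin hv hL0 hA hd y
    have hF1 : 0 ≤ δ * K / ρ ^ 2 := by positivity
    have hF2 : 0 ≤ M * (1 + Real.log (L / ρ)) := by
      have := log_nonneg' hρ hρL
      positivity
    have hF3 : 0 ≤ A / L ^ 2 := by positivity
    have h7 : ∑ i, far ρ L (Gf (dir v y₀) v i) y
        ≤ 168 * (δ * K / ρ ^ 2) + 72 * (M * (1 + Real.log (L / ρ))) := by
      refine (Finset.sum_le_sum fun i _ => h4 i).trans ?_
      simp only [Finset.sum_const, Finset.card_univ, Fintype.card_fin, nsmul_eq_mul]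
      push_cast
      have : 8 * (7 * δ) * K / ρ ^ 2 = 56 * (δ * K / ρ ^ 2) := by ring
      rw [this]
      linarith
    rw [mul_comm 168 C, mul_assoc]
    refine mul_le_mul_of_nonneg_left ?_ hC.le
    linarith

end

end Pool.Agent.Q67.VD3
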